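import Pool.Agent.H.MP_7df7b8_gt.Chain

namespace Pool.Agent.Results.MP_7df7b8_gt.Unit

open Pool.Agent.H.MP_dfcdcf_gt

/-- Equality in the monoid of welded string links up to self-crossing change. -/
def Eqv {n : ℕ} (D E : Gauss n) : Prop :=
  Relation.EqvGen (fun A B => WMove A B ∨ SelfChange A B) D E

/-- The stacking product of `D` and `E` is trivial: the diagram `S` obtained by putting `E` after
`D` on every strand is equivalent to the diagram without crossings. -/
def ProdTrivial {n : ℕ} (D E : Gauss n) : Prop :=
  ∃ S T : Gauss n, (∀ i, S.word i = D.word i ++ E.word i) ∧ SameSign S D ∧ SameSign S E ∧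
    (∀ i, T.word i = []) ∧ Eqv S T

open Pool.Agent.H.MP_7df7b8_gt in
theorem result : ∃ U V : Gauss 2, ProdTrivial U V ∧ ProdTrivial V U ∧
    ∀ B : Gauss 2, IsMonotone B → ¬ Eqv U B := by
  refine ⟨U, V, ⟨uv0, uv12, by decide, by unfold SameSign; decide, by unfold SameSign; decide,
    by decide, chainuv⟩, ⟨vu0, vu12, by decide, by unfold SameSign; decide,
    by unfold SameSign; decide, by decide, chainvu⟩, fun B hB h => ?_⟩
  have := I_eqv h
  rw [I_U, I_mono hB] at this
  exact absurd this (by decide)

end Pool.Agent.Results.MP_7df7b8_gt.Unit
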